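import Mathlib

open MeasureTheory Metric Set Polynomial
open scoped ENNReal

namespace Pool.Agent.Sprindzhuk

lemma exists_separated (E : Set ℝ) (s : ℝ) (hs : 0 < s) :
    ∀ (k : ℕ), ENNReal.ofReal (2 * s * k) < volume E →
      ∃ t : Finset ℝ, (∀ x ∈ t, x ∈ E) ∧ t.card = k + 1 ∧ ∀ x ∈ t, ∀ y ∈ t, x ≠ y → s ≤ |x - y| := by
  classical
  intro k
  induction k with
  | zero =>
    intro h
    have hne : E.Nonempty := by
      by_contra hcon
      rw [not_nonempty_iff_eq_empty] at hcon
      rw [hcon] at h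
      simp at h
    obtain ⟨x, hx⟩ := hne
    refine ⟨{x}, by simpa using hx, by simp, ?_⟩
    intro a ha b hb hab
    rw [Finset.mem_singleton] at ha hb
    exact absurd (ha.trans hb.symm) hab
  | succ k ih =>
    intro h
    have h1 : ENNReal.ofReal (2 * s * k) < volume E := by
      refine lt_of_le_of_lt (ENNReal.ofReal_le_ofReal ?_) h
      push_cast
      nlinarith
    obtain ⟨t, htE, htc, hts⟩ := ih h1
    -- find a further point
    have h2 : ∃ x ∈ E, x ∉ ⋃ y ∈ t, ball y s := by
      by_contra hcon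
      push Not at hcon
      have h3 : volume E ≤ ENNReal.ofReal (2 * s * ((k + 1 : ℕ) : ℝ)) := by
        calc volume E ≤ volume (⋃ y ∈ t, ball y s) := measure_mono hcon
          _ ≤ ∑ y ∈ t, volume (ball y s) := measure_biUnion_finset_le _ _
          _ = ∑ y ∈ t, ENNReal.ofReal (2 * s) := by simp_rw [Real.volume_ball]
          _ = ENNReal.ofReal (2 * s * ((k + 1 : ℕ) : ℝ)) := by
              rw [Finset.sum_const, htc, nsmul_eq_mul, ← ENNReal.ofReal_natCast,
                ← ENNReal.ofReal_mul (by positivity)]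
              congr 1; ring
      exact absurd h (not_lt.2 h3)
    obtain ⟨x, hxE, hx⟩ := h2
    have hfar : ∀ y ∈ t, s ≤ |x - y| := by
      intro y hy
      by_contra hcon
      push Not at hcon
      apply hx
      rw [mem_iUnion₂]
      exact ⟨y, hy, by rw [mem_ball, Real.dist_eq]; exact hcon⟩
    have hxt : x ∉ t := by
      intro hxt
      have := hfar x hxt
      simp at this
      linarith
    refine ⟨insert x t, ?_, ?_, ?_⟩
    · intro y hy
      rcases Finset.mem_insert.1 hy with rfl | hy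
      · exact hxE
      · exact htE y hy
    · rw [Finset.card_insert_of_notMem hxt, htc]
    · intro a ha b hb hab
      rcases Finset.mem_insert.1 ha with ha1 | ha1
      · rcases Finset.mem_insert.1 hb with hb1 | hb1
        · exact absurd (ha1.trans hb1.symm) hab
        · rw [ha1]; exact hfar b hb1
      · rcases Finset.mem_insert.1 hb with hb1 | hb1
        · rw [abs_sub_comm, hb1]; exact hfar a ha1
        · exact hts a ha1 b hb1 hab

lemma poly_bound (n : ℕ) (q : ℝ[X]) (hq : q.natDegree ≤ n) (t : Finset ℝ) (ht : t.card = n + 1)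
    (s ℓ ε : ℝ) (hs : 0 < s) (hε : 0 ≤ ε) (hsep : ∀ x ∈ t, ∀ y ∈ t, x ≠ y → s ≤ |x - y|)
    (hval : ∀ x ∈ t, |q.eval x| ≤ ε) (z : ℝ) (hz : ∀ x ∈ t, |z - x| ≤ ℓ) :
    |q.eval z| ≤ (n + 1) * ε * (ℓ / s) ^ n := by
  classical
  have hdeg : q.degree < t.card := by
    rw [ht]
    refine lt_of_le_of_lt (degree_le_natDegree) ?_
    exact_mod_cast Nat.lt_succ_of_le hq
  have hinj : Set.InjOn (id : ℝ → ℝ) t := Function.injective_id.injOn
  have h1 := Lagrange.eq_interpolate (v := id) hinj hdeg
  have h2 : q.eval z = ∑ i ∈ t, q.eval i * (Lagrange.basis t id i).eval z := by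
    conv_lhs => rw [h1]
    rw [Lagrange.interpolate_apply, eval_finsetSum]
    simp
  rw [h2]
  have hℓ : 0 ≤ ℓ := by
    have : t.Nonempty := by rw [← Finset.card_pos, ht]; omega
    obtain ⟨x, hx⟩ := this
    exact (abs_nonneg _).trans (hz x hx)
  have hbasis : ∀ i ∈ t, |(Lagrange.basis t id i).eval z| ≤ (ℓ / s) ^ n := by
    intro i hi
    unfold Lagrange.basis Lagrange.basisDivisor
    rw [eval_prod, Finset.abs_prod]
    have hc : (t.erase i).card = n := by rw [Finset.card_erase_of_mem hi, ht]; simp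
    have hbd : ∀ j ∈ t.erase i, |eval z (C (id i - id j)⁻¹ * (X - C (id j)))| ≤ ℓ / s := by
      intro j hj
      rw [Finset.mem_erase] at hj
      simp only [id, eval_mul, eval_C, eval_sub, eval_X]
      rw [abs_mul, abs_inv, div_eq_mul_inv, mul_comm]
      have h3 := hsep i hi j hj.2 (Ne.symm hj.1)
      have h4 := hz j hj.2
      apply mul_le_mul h4 _ (by positivity) hℓ
      exact inv_anti₀ hs h3
    calc ∏ j ∈ t.erase i, |eval z (C (id i - id j)⁻¹ * (X - C (id j)))|
        ≤ ∏ j ∈ t.erase i, (ℓ / s) := Finset.prod_le_prod (fun _ _ => abs_nonneg _) hbd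
      _ = (ℓ / s) ^ n := by rw [Finset.prod_const, hc]
  calc |∑ i ∈ t, q.eval i * (Lagrange.basis t id i).eval z|
      ≤ ∑ i ∈ t, |q.eval i * (Lagrange.basis t id i).eval z| := Finset.abs_sum_le_sum_abs _ _
    _ ≤ ∑ i ∈ t, ε * (ℓ / s) ^ n := by
        refine Finset.sum_le_sum fun i hi => ?_
        rw [abs_mul]
        exact mul_le_mul (hval i hi) (hbasis i hi) (abs_nonneg _) hε
    _ = (n + 1) * ε * (ℓ / s) ^ n := by
        rw [Finset.sum_const, ht, nsmul_eq_mul]; push_cast; ring

/-- `(C, α)`-goodness of polynomials of degree at most `n`. -/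
lemma poly_good (n : ℕ) (hn : 1 ≤ n) (q : ℝ[X]) (hq : q.natDegree ≤ n) (η : ℝ) (hη : 0 < η)
    (c r : ℝ) (hr : 0 < r) (z : ℝ) (hz : z ∈ closedBall c r) (hz1 : 1 ≤ |q.eval z|) :
    volume {x ∈ closedBall c r | |q.eval x| < η ^ n / (n + 1)} ≤
      ENNReal.ofReal (4 * n * η) * volume (closedBall c r) := by
  by_contra hcon
  push Not at hcon
  rw [Real.volume_closedBall, ← ENNReal.ofReal_mul (by positivity)] at hcon
  have h1 : ENNReal.ofReal (2 * (4 * r * η) * n) <
      volume {x ∈ closedBall c r | |q.eval x| < η ^ n / (n + 1)} := by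
    convert hcon using 2
    ring
  obtain ⟨t, htE, htc, hts⟩ := exists_separated _ (4 * r * η) (by positivity) n h1
  have h2 := poly_bound n q hq t htc (4 * r * η) (2 * r) (η ^ n / (n + 1)) (by positivity)
    (by positivity) hts (fun x hx => (htE x hx).2.le) z (by
      intro x hx
      have h3 := (htE x hx).1
      rw [mem_closedBall, Real.dist_eq] at h3 hz
      calc |z - x| = |(z - c) - (x - c)| := by ring_nf
        _ ≤ |z - c| + |x - c| := abs_sub _ _
        _ ≤ 2 * r := by linarith)
  have h3 : (n + 1 : ℝ) * (η ^ n / (n + 1)) * (2 * r / (4 * r * η)) ^ n = (1 / 2) ^ n := by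
    have : 2 * r / (4 * r * η) = 1 / (2 * η) := by field_simp; ring
    rw [this, mul_div_cancel₀ _ (by positivity), ← mul_pow]
    congr 1
    field_simp
  rw [h3] at h2
  have h4 : (1 / 2 : ℝ) ^ n < 1 := pow_lt_one₀ (by norm_num) (by norm_num) (by omega)
  linarith

end Pool.Agent.Sprindzhuk
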