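import Mathlib

open MeasureTheory Metric Set
open scoped ENNReal

namespace Pool.Agent.Sprindzhuk

/-- A one-dimensional consequence of the Besicovitch covering theorem. -/
lemma besicovitch_bound (E : Set ℝ) (c₀ R : ℝ) (rad : ℝ → ℝ) (hpos : ∀ y ∈ E, 0 < rad y)
    (hsub : ∀ y ∈ E, closedBall y (rad y) ⊆ closedBall c₀ R) (κ : ℝ≥0∞)
    (h : ∀ y ∈ E, volume (E ∩ closedBall y (rad y)) ≤ κ * volume (closedBall y (rad y))) :
    volume E ≤ 5 * (κ * volume (closedBall c₀ R)) := by
  classical
  have hradR : ∀ y ∈ E, rad y ≤ R := by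
    intro y hy
    have h1 : y + rad y ∈ closedBall y (rad y) := by
      rw [mem_closedBall, Real.dist_eq]; simp [abs_of_pos (hpos y hy)]
    have h2 : y - rad y ∈ closedBall y (rad y) := by
      rw [mem_closedBall, Real.dist_eq]; simp [abs_of_pos (hpos y hy)]
    have h3 := hsub y hy h1
    have h4 := hsub y hy h2
    rw [mem_closedBall, Real.dist_eq, abs_le] at h3 h4
    linarith [h3.2, h4.1]
  let q : Besicovitch.BallPackage E ℝ :=
    { c := fun y => (y : ℝ)
      r := fun y => rad y
      rpos := fun y => hpos y y.2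
      r_bound := R
      r_le := fun y => hradR y y.2 }
  obtain ⟨s, hs, hcov⟩ := Besicovitch.exist_disjoint_covering_families (Besicovitch.one_lt_goodτ ℝ)
    (Besicovitch.isEmpty_satelliteConfig_multiplicity ℝ) q
  have hE : E ⊆ ⋃ i, ⋃ j ∈ s i, (E ∩ closedBall (j : ℝ) (rad j)) := by
    intro x hx
    have : x ∈ range q.c := ⟨⟨x, hx⟩, rfl⟩
    have h1 := hcov this
    rw [mem_iUnion] at h1 ⊢
    obtain ⟨i, hi⟩ := h1
    refine ⟨i, ?_⟩
    rw [mem_iUnion₂] at hi ⊢
    obtain ⟨j, hj, hxj⟩ := hi
    exact ⟨j, hj, hx, ball_subset_closedBall hxj⟩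
  have hfam : ∀ i, volume (⋃ j ∈ s i, (E ∩ closedBall (j : ℝ) (rad j))) ≤
      κ * volume (closedBall c₀ R) := by
    intro i
    have hcount : (s i).Countable := by
      refine (hs i).countable_of_nonempty_interior fun j _ => ?_
      refine ⟨(j : ℝ), ?_⟩
      exact ball_subset_interior_closedBall (mem_ball_self (hpos j j.2))
    calc volume (⋃ j ∈ s i, (E ∩ closedBall (j : ℝ) (rad j)))
        ≤ ∑' j : s i, volume (E ∩ closedBall ((j : E) : ℝ) (rad (j : E))) :=
          measure_biUnion_le _ hcount _
      _ ≤ ∑' j : s i, κ * volume (closedBall ((j : E) : ℝ) (rad (j : E))) :=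
          ENNReal.tsum_le_tsum fun j => h _ (j : E).2
      _ = κ * ∑' j : s i, volume (closedBall ((j : E) : ℝ) (rad (j : E))) := ENNReal.tsum_mul_left
      _ = κ * volume (⋃ j ∈ s i, closedBall ((j : E) : ℝ) (rad (j : E))) := by
          rw [measure_biUnion hcount (hs i) (fun j _ => measurableSet_closedBall)]
      _ ≤ κ * volume (closedBall c₀ R) := by
          gcongr
          exact iUnion₂_subset fun j _ => hsub _ j.2
  calc volume E ≤ volume (⋃ i, ⋃ j ∈ s i, (E ∩ closedBall (j : ℝ) (rad j))) := measure_mono hE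
    _ ≤ ∑' i, volume (⋃ j ∈ s i, (E ∩ closedBall (j : ℝ) (rad j))) := measure_iUnion_le _
    _ ≤ ∑' _i : Fin (Besicovitch.multiplicity ℝ), κ * volume (closedBall c₀ R) :=
        ENNReal.tsum_le_tsum hfam
    _ = (Besicovitch.multiplicity ℝ : ℝ≥0∞) * (κ * volume (closedBall c₀ R)) := by
        rw [tsum_fintype, Finset.sum_const, Finset.card_univ, Fintype.card_fin, nsmul_eq_mul]
    _ ≤ 5 * (κ * volume (closedBall c₀ R)) := by
        gcongr
        have := Besicovitch.multiplicity_le (E := ℝ)
        rw [Module.finrank_self, pow_one] at this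
        exact_mod_cast this

variable {ι : Type*} [PartialOrder ι]

/-- `x` is marked (with respect to the finite family `P` of functions `ψ s`) if there is a flag
`F` in `P` with `ψ s x ≤ ρ` on the flag and `ε ≤ ψ s x` for all `s` comparable to the flag. -/
def Marked (ψ : ι → ℝ → ℝ) (ε ρ : ℝ) (P : Finset ι) (x : ℝ) : Prop :=
  ∃ F : Finset ι, F ⊆ P ∧ IsChain (· ≤ ·) (F : Set ι) ∧ (∀ s ∈ F, ψ s x ≤ ρ) ∧
    ∀ s ∈ P, (∀ t ∈ F, s ≤ t ∨ t ≤ s) → ε ≤ ψ s x

/-- The constants in the nondivergence estimate. -/
noncomputable def K : ℕ → ℝ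
  | 0 => 0
  | m + 1 => 15 * (K m + 1)

lemma K_nonneg : ∀ m, 0 ≤ K m
  | 0 => le_refl _
  | m + 1 => by
    have := K_nonneg m
    simp only [K]; positivity

lemma K_le : ∀ m, K m ≤ 2 * 15 ^ m - 2
  | 0 => by simp [K]
  | m + 1 => by
    have := K_le m
    simp only [K]
    have h1 : (1:ℝ) ≤ 15 ^ m := one_le_pow₀ (by norm_num)
    rw [pow_succ]
    linarith

theorem km_abstract (ψ : ι → ℝ → ℝ) (hψ : ∀ s, Continuous (ψ s)) (ε ρ κ : ℝ)
    (hερ : ε ≤ ρ) (hκ : 0 ≤ κ)
    (hgood : ∀ s (c r : ℝ), 0 < r → (∃ z ∈ closedBall c r, ρ ≤ ψ s z) →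
      volume {x ∈ closedBall c r | ψ s x < ε} ≤ ENNReal.ofReal κ * volume (closedBall c r)) :
    ∀ (m : ℕ) (P : Finset ι), (∀ F ⊆ P, IsChain (· ≤ ·) (F : Set ι) → F.card ≤ m) →
      ∀ c r : ℝ, 0 < r → (∀ s ∈ P, ∃ z ∈ closedBall c r, ρ ≤ ψ s z) →
        volume {x ∈ closedBall c r | ¬ Marked ψ ε ρ P x} ≤
          ENNReal.ofReal (K m * κ) * volume (closedBall c r) := by
  classical
  intro m
  induction m with
  | zero =>
    intro P hP c r hr hz
    have hPe : P = ∅ := by
      by_contra hne
      obtain ⟨s, hs⟩ := Finset.nonempty_iff_ne_empty.2 hne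
      have := hP {s} (by simpa using hs) (by simp)
      simp at this
    have : {x ∈ closedBall c r | ¬ Marked ψ ε ρ P x} = ∅ := by
      ext x
      simp only [mem_ofPred_eq, mem_empty_iff_false, iff_false, not_and, not_not]
      intro _
      refine ⟨∅, by simp, by simp, by simp, ?_⟩
      rw [hPe]; simp
    rw [this]; simp
  | succ m ih =>
    intro P hP c r hr hz
    set E : Set ℝ := {x ∈ closedBall c r | ¬ Marked ψ ε ρ P x} with hE
    -- the closed sets
    let Z : ι → Set ℝ := fun s => {x | ρ ≤ ψ s x}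
    have hZc : ∀ s, IsClosed (Z s) := fun s => isClosed_le continuous_const (hψ s)
    -- points of `E` have some `s ∈ P` with `ψ s y < ρ`
    have hex : ∀ y ∈ E, ∃ s ∈ P, ψ s y < ρ := by
      intro y hy
      by_contra hcon
      push Not at hcon
      exact hy.2 ⟨∅, by simp, by simp, by simp, fun s hs _ => hερ.trans (hcon s hs)⟩
    have hmax : ∀ y ∈ E, ∃ s ∈ P, ψ s y < ρ ∧ ∀ t ∈ P, ψ t y < ρ → infDist y (Z t) ≤ infDist y (Z s) := by
      intro y hy
      obtain ⟨s₀, hs₀, hs₀'⟩ := hex y hy
      obtain ⟨s, hs, hs'⟩ := Finset.exists_max_image (P.filter fun s => ψ s y < ρ)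
        (fun s => infDist y (Z s)) ⟨s₀, Finset.mem_filter.2 ⟨hs₀, hs₀'⟩⟩
      rw [Finset.mem_filter] at hs
      exact ⟨s, hs.1, hs.2, fun t ht ht' => hs' t (Finset.mem_filter.2 ⟨ht, ht'⟩)⟩
    rcases E.eq_empty_or_nonempty with hE0 | hEne
    · rw [hE0]; simp
    have : Nonempty ι := by
      obtain ⟨y, hy⟩ := hEne
      obtain ⟨s, _⟩ := hex y hy
      exact ⟨s⟩
    choose! σ hσP hσρ hσmax using hmax
    let rad : ℝ → ℝ := fun y => infDist y (Z (σ y))
    have hne : ∀ s ∈ P, (Z s).Nonempty := fun s hs => by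
      obtain ⟨z, _, hz⟩ := hz s hs
      exact ⟨z, hz⟩
    have hpos : ∀ y ∈ E, 0 < rad y := by
      intro y hy
      have h1 : y ∉ Z (σ y) := not_le.2 (hσρ y hy)
      exact ((hZc _).notMem_iff_infDist_pos (hne _ (hσP y hy))).1 h1
    have hrad2 : ∀ y ∈ E, rad y ≤ 2 * r := by
      intro y hy
      obtain ⟨z, hzb, hz'⟩ := hz _ (hσP y hy)
      have h1 : infDist y (Z (σ y)) ≤ dist y z := infDist_le_dist_of_mem hz'
      have h2 : dist y z ≤ dist y c + dist z c := dist_triangle_right _ _ _
      have h3 := hy.1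
      rw [mem_closedBall] at h3 hzb
      show infDist y (Z (σ y)) ≤ 2 * r
      linarith
    have hsub : ∀ y ∈ E, closedBall y (rad y) ⊆ closedBall c (3 * r) := by
      intro y hy
      refine closedBall_subset_closedBall' ?_
      have h3 := hy.1
      rw [mem_closedBall] at h3
      have := hrad2 y hy
      linarith
    -- key local estimate
    have hlocal : ∀ y ∈ E, volume (E ∩ closedBall y (rad y)) ≤
        ENNReal.ofReal ((K m + 1) * κ) * volume (closedBall y (rad y)) := by
      intro y hy
      set s := σ y with hs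
      have hsP : s ∈ P := hσP y hy
      -- existence of large points for every `t ∈ P`
      have hlarge : ∀ t ∈ P, ∃ z ∈ closedBall y (rad y), ρ ≤ ψ t z := by
        intro t ht
        by_cases hty : ψ t y < ρ
        · obtain ⟨z, hzZ, hzd⟩ := (hZc t).exists_infDist_eq_dist (hne t ht) y
          refine ⟨z, ?_, hzZ⟩
          rw [mem_closedBall, dist_comm, ← hzd]
          exact hσmax y hy t ht hty
        · push Not at hty
          exact ⟨y, mem_closedBall_self (hpos y hy).le, hty⟩
      -- on the closed ball `ψ s ≤ ρ`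
      have hle : ∀ x ∈ closedBall y (rad y), ψ s x ≤ ρ := by
        intro x hx
        rw [← closure_ball y (hpos y hy).ne'] at hx
        refine closure_minimal (s := ball y (rad y)) (t := {x | ψ s x ≤ ρ}) ?_
          (isClosed_le (hψ s) continuous_const) hx
        intro w hw
        by_contra hcon
        have hcon1 : ¬ ψ s w ≤ ρ := hcon
        have hcon2 : ρ ≤ ψ s w := (not_le.1 hcon1).le
        have hcon' : w ∈ Z s := hcon2
        have := infDist_le_dist_of_mem (x := y) hcon'
        rw [mem_ball, dist_comm] at hw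
        exact absurd hw (not_lt.2 this)
      let P' : Finset ι := P.filter fun t => t ≠ s ∧ (t ≤ s ∨ s ≤ t)
      have hP' : ∀ F ⊆ P', IsChain (· ≤ ·) (F : Set ι) → F.card ≤ m := by
        intro F hF hchain
        have hsF : s ∉ F := fun h => (Finset.mem_filter.1 (hF h)).2.1 rfl
        have h1 : insert s F ⊆ P := by
          intro t ht
          rcases Finset.mem_insert.1 ht with rfl | ht
          · exact hsP
          · exact (Finset.mem_filter.1 (hF ht)).1
        have h2 : IsChain (· ≤ ·) ((insert s F : Finset ι) : Set ι) := by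
          rw [Finset.coe_insert]
          refine hchain.insert fun t ht _ => ?_
          exact (Finset.mem_filter.1 (hF ht)).2.2.symm
        have := hP _ h1 h2
        rw [Finset.card_insert_of_notMem hsF] at this
        omega
      have hI := ih P' hP' y (rad y) (hpos y hy) (fun t ht => hlarge t (Finset.mem_filter.1 ht).1)
      have hG := hgood s y (rad y) (hpos y hy) (hlarge s hsP)
      have hsubset : E ∩ closedBall y (rad y) ⊆
          {x ∈ closedBall y (rad y) | ¬ Marked ψ ε ρ P' x} ∪ {x ∈ closedBall y (rad y) | ψ s x < ε} := by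
        rintro x ⟨hxE, hxB⟩
        by_cases hM : Marked ψ ε ρ P' x
        · right
          refine ⟨hxB, ?_⟩
          by_contra hcon
          push Not at hcon
          apply hxE.2
          obtain ⟨F, hF, hchain, hFρ, hFε⟩ := hM
          refine ⟨insert s F, ?_, ?_, ?_, ?_⟩
          · intro t ht
            rcases Finset.mem_insert.1 ht with rfl | ht
            · exact hsP
            · exact (Finset.mem_filter.1 (hF ht)).1
          · rw [Finset.coe_insert]
            refine hchain.insert fun t ht _ => ?_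
            exact (Finset.mem_filter.1 (hF ht)).2.2.symm
          · intro t ht
            rcases Finset.mem_insert.1 ht with rfl | ht
            · exact hle x hxB
            · exact hFρ t ht
          · intro t ht hcomp
            by_cases hts : t = s
            · rw [hts]; exact hcon
            · refine hFε t (Finset.mem_filter.2 ⟨ht, hts, ?_⟩) fun t' ht' =>
                hcomp t' (Finset.mem_insert_of_mem ht')
              exact hcomp s (Finset.mem_insert_self _ _)
        · left
          exact ⟨hxB, hM⟩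
      calc volume (E ∩ closedBall y (rad y))
          ≤ volume {x ∈ closedBall y (rad y) | ¬ Marked ψ ε ρ P' x} +
            volume {x ∈ closedBall y (rad y) | ψ s x < ε} :=
            (measure_mono hsubset).trans (measure_union_le _ _)
        _ ≤ ENNReal.ofReal (K m * κ) * volume (closedBall y (rad y)) +
            ENNReal.ofReal κ * volume (closedBall y (rad y)) := add_le_add hI hG
        _ = ENNReal.ofReal ((K m + 1) * κ) * volume (closedBall y (rad y)) := by
            rw [← add_mul, ← ENNReal.ofReal_add (mul_nonneg (K_nonneg m) hκ) hκ]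
            congr 2; ring
    have hfinal := besicovitch_bound E c (3 * r) rad hpos hsub _ hlocal
    refine hfinal.trans (le_of_eq ?_)
    rw [Real.volume_closedBall, Real.volume_closedBall]
    rw [← ENNReal.ofReal_mul (by have := K_nonneg m; positivity),
      ← ENNReal.ofReal_mul (by have := K_nonneg (m+1); positivity)]
    rw [show (5 : ℝ≥0∞) = ENNReal.ofReal 5 by simp, ← ENNReal.ofReal_mul (by norm_num)]
    congr 1
    simp only [K]
    ring

end Pool.Agent.Sprindzhuk
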