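import Mathlib

open Module

namespace Pool.Agent.Sprindzhuk

/-- Coercion of integer vectors to rational vectors. -/
def toQ (d : ℕ) : (Fin d → ℤ) →ₗ[ℤ] (Fin d → ℚ) where
  toFun z := fun i => (z i : ℚ)
  map_add' x y := by ext i; simp
  map_smul' c x := by ext i; simp

lemma toQ_apply {d : ℕ} (z : Fin d → ℤ) (i : Fin d) : toQ d z i = (z i : ℚ) := rfl

lemma toQ_injective (d : ℕ) : Function.Injective (toQ d) := by
  intro x y h
  ext i
  have := congrFun h i
  simpa [toQ_apply] using this

/-- Every rational subspace has a family of integer vectors which is a `ℤ`-basis of its integer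
points. -/
lemma exists_int_basis {d : ℕ} (W : Submodule ℚ (Fin d → ℚ)) :
    ∃ b : Fin (finrank ℚ W) → (Fin d → ℤ), (∀ i, toQ d (b i) ∈ W) ∧ LinearIndependent ℤ b ∧
      ∀ z : Fin d → ℤ, toQ d z ∈ W → ∃ c : Fin (finrank ℚ W) → ℤ, z = ∑ i, c i • b i := by
  classical
  let Γ : Submodule ℤ (Fin d → ℤ) := (W.restrictScalars ℤ).comap (toQ d)
  obtain ⟨r, ⟨B⟩⟩ := Submodule.nonempty_basis_of_pid (Pi.basisFun ℤ (Fin d)) Γ
  have hBmem : ∀ i, toQ d (B i : Fin d → ℤ) ∈ W := fun i => (B i).2
  have hli : LinearIndependent ℤ (fun i => (B i : Fin d → ℤ)) :=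
    B.linearIndependent.map' Γ.subtype (Submodule.ker_subtype _)
  have hliQ : LinearIndependent ℤ (fun i => toQ d (B i : Fin d → ℤ)) :=
    hli.map' (toQ d) (LinearMap.ker_eq_bot.2 (toQ_injective d))
  have hliQ' : LinearIndependent ℚ (fun i => toQ d (B i : Fin d → ℤ)) :=
    (LinearIndependent.iff_fractionRing ℤ ℚ).1 hliQ
  have hcomb : ∀ z : Fin d → ℤ, toQ d z ∈ W → ∃ c : Fin r → ℤ, z = ∑ i, c i • (B i : Fin d → ℤ) := by
    intro z hz
    have hz' : z ∈ Γ := hz
    refine ⟨fun i => B.repr ⟨z, hz'⟩ i, ?_⟩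
    have h0 := congrArg (Subtype.val) (B.sum_repr ⟨z, hz'⟩)
    refine h0.symm.trans ?_
    rw [Submodule.coe_sum]
    rfl
  have hspan : Submodule.span ℚ (Set.range (fun i => toQ d (B i : Fin d → ℤ))) = W := by
    apply le_antisymm
    · rw [Submodule.span_le]
      rintro _ ⟨i, rfl⟩
      exact hBmem i
    · intro w hw
      obtain ⟨m, hm⟩ := IsLocalization.exist_integer_multiples_of_finite (nonZeroDivisors ℤ) w
      choose z hz using hm
      have hm0 : ((m : ℤ) : ℚ) ≠ 0 := by
        have := nonZeroDivisors.coe_ne_zero m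
        exact_mod_cast this
      have h1 : toQ d z = ((m : ℤ) : ℚ) • w := by
        ext i
        rw [toQ_apply]
        have := hz i
        simp only [algebraMap_int_eq, eq_intCast] at this
        rw [this]
        simp
      have hzW : toQ d z ∈ W := by rw [h1]; exact W.smul_mem _ hw
      obtain ⟨c, hc⟩ := hcomb z hzW
      have h2 : w = ((m : ℤ) : ℚ)⁻¹ • toQ d z := by
        rw [h1, smul_smul, inv_mul_cancel₀ hm0, one_smul]
      rw [h2, hc, map_sum]
      refine Submodule.smul_mem _ _ (Submodule.sum_mem _ fun i _ => ?_)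
      rw [map_smul]
      have h3 : c i • toQ d (B i : Fin d → ℤ) = ((c i : ℤ) : ℚ) • toQ d (B i : Fin d → ℤ) := by
        ext k; simp
      rw [h3]
      exact Submodule.smul_mem _ _ (Submodule.subset_span ⟨i, rfl⟩)
  have hr : r = finrank ℚ W := by
    have := finrank_span_eq_card hliQ'
    rw [hspan, Fintype.card_fin] at this
    exact this.symm
  subst hr
  exact ⟨fun i => (B i : Fin d → ℤ), hBmem, hli, hcomb⟩

/-- All `j × j` minors (indexed by arbitrary maps `Fin j → Fin d`) of a family of vectors. -/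
noncomputable def minors {R : Type*} [CommRing R] {j d : ℕ} (u : Fin j → Fin d → R) :
    (Fin j → Fin d) → R :=
  fun I => Matrix.det (Matrix.of fun a c => u a (I c))

lemma minors_comb {R : Type*} [CommRing R] {j d : ℕ} (u u' : Fin j → Fin d → R)
    (A : Matrix (Fin j) (Fin j) R) (h : ∀ a, u' a = ∑ l, A a l • u l) (I : Fin j → Fin d) :
    minors u' I = A.det * minors u I := by
  unfold minors
  rw [← Matrix.det_mul]
  congr 1
  ext a c
  rw [Matrix.mul_apply, Matrix.of_apply, h a]
  simp

lemma norm_minors_snoc {j d : ℕ} (u : Fin j → Fin d → ℝ) (v : Fin d → ℝ) :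
    ‖minors (Fin.snoc u v : Fin (j + 1) → Fin d → ℝ)‖ ≤ (j + 1) * ‖minors u‖ * ‖v‖ := by
  rw [pi_norm_le_iff_of_nonneg (by positivity)]
  intro I
  unfold minors
  rw [Matrix.det_succ_row _ (Fin.last j)]
  refine (norm_sum_le _ _).trans ?_
  have h : ∀ c ∈ (Finset.univ : Finset (Fin (j + 1))),
      ‖(-1 : ℝ) ^ ((Fin.last j : ℕ) + (c : ℕ)) *
        (Matrix.of fun a c => (Fin.snoc u v : Fin (j + 1) → Fin d → ℝ) a (I c)) (Fin.last j) c *
        ((Matrix.of fun a c => (Fin.snoc u v : Fin (j + 1) → Fin d → ℝ) a (I c)).submatrix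
          (Fin.last j).succAbove c.succAbove).det‖ ≤ ‖minors u‖ * ‖v‖ := by
    intro c _
    rw [norm_mul, norm_mul, norm_pow, norm_neg, norm_one, one_pow, one_mul, mul_comm]
    apply mul_le_mul _ _ (norm_nonneg _) (norm_nonneg _)
    · have : ((Matrix.of fun a c => (Fin.snoc u v : Fin (j + 1) → Fin d → ℝ) a (I c)).submatrix
          (Fin.last j).succAbove c.succAbove).det = minors u (fun c' => I (c.succAbove c')) := by
        unfold minors
        congr 1
        ext a c'
        simp [Matrix.submatrix_apply]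
      rw [this]
      exact norm_le_pi_norm (minors u) _
    · rw [Matrix.of_apply, Fin.snoc_last]
      exact norm_le_pi_norm v _
  refine (Finset.sum_le_sum h).trans ?_
  rw [Finset.sum_const, Finset.card_univ, Fintype.card_fin, nsmul_eq_mul]
  push_cast
  rw [mul_assoc]
  exact le_refl _

/-- A linearly independent family of integer vectors has a nonzero minor. -/
lemma exists_minor_ne_zero {j d : ℕ} (b : Fin j → Fin d → ℤ) (hb : LinearIndependent ℤ b) :
    ∃ I : Fin j → Fin d, minors b I ≠ 0 := by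
  classical
  have h1 : LinearIndependent ℤ (fun i => toQ d (b i)) :=
    hb.map' (toQ d) (LinearMap.ker_eq_bot.2 (toQ_injective d))
  have h2 : LinearIndependent ℚ (fun i => toQ d (b i)) :=
    (LinearIndependent.iff_fractionRing ℤ ℚ).1 h1
  let A : Matrix (Fin j) (Fin d) ℚ := Matrix.of fun i => toQ d (b i)
  have hrow : LinearIndependent ℚ A.row := h2
  have hrank : A.rank = j := by
    have := hrow.rank_matrix
    simpa using this
  have hspan : finrank ℚ (Submodule.span ℚ (Set.range A.col)) = j := by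
    rw [← Matrix.rank_eq_finrank_span_cols, hrank]
  obtain ⟨f, hf1, -, hf3⟩ := Submodule.exists_fun_fin_finrank_span_eq ℚ (Set.range A.col)
  choose I hI using hf1
  let e : Fin j ≃ Fin (finrank ℚ (Submodule.span ℚ (Set.range A.col))) := finCongr hspan.symm
  refine ⟨fun c => I (e c), ?_⟩
  intro h0
  have h4 : LinearIndependent ℚ (fun c : Fin j => f (e c)) := hf3.comp _ e.injective
  let M : Matrix (Fin j) (Fin j) ℚ := Matrix.of fun a c => ((b a (I (e c)) : ℤ) : ℚ)
  have h5 : LinearIndependent ℚ M.col := by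
    convert h4 using 1
    ext c a
    rw [← hI (e c)]
    simp [M, A, Matrix.col, toQ_apply]
  have h6 : IsUnit M := Matrix.linearIndependent_cols_iff_isUnit.1 h5
  have h7 : M.det ≠ 0 := by
    have := (Matrix.isUnit_iff_isUnit_det M).1 h6
    exact this.ne_zero
  apply h7
  have h8 : M.det = ((minors b (fun c => I (e c)) : ℤ) : ℚ) := by
    unfold minors
    have := RingHom.map_det (Int.castRingHom ℚ) (Matrix.of fun a c => b a (I (e c)))
    rw [eq_intCast] at this
    rw [this]
    rfl
  rw [h8, h0]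
  simp

end Pool.Agent.Sprindzhuk
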