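import Mathlib
import Pool.Agent.Sprindzhuk.KM
import Pool.Agent.Sprindzhuk.Good
import Pool.Agent.Sprindzhuk.Lat

open MeasureTheory Metric Set Polynomial Module
open scoped ENNReal

namespace Pool.Agent.Sprindzhuk

/-- The action of `g_T u_x` on a vector. -/
noncomputable def hvec (n : ℕ) (T x : ℝ) (z : Fin (n + 1) → ℝ) : Fin (n + 1) → ℝ :=
  fun i => if i = 0 then T ^ n * ∑ k, z k * x ^ (k : ℕ) else z i / T

lemma hvec_zero (n : ℕ) (T x : ℝ) (z : Fin (n + 1) → ℝ) :
    hvec n T x z 0 = T ^ n * ∑ k, z k * x ^ (k : ℕ) := by simp [hvec]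

lemma hvec_ne (n : ℕ) (T x : ℝ) (z : Fin (n + 1) → ℝ) (i : Fin (n + 1)) (hi : i ≠ 0) :
    hvec n T x z i = z i / T := by simp [hvec, hi]

/-- the real family associated with an integer family -/
noncomputable def hfam {j : ℕ} (n : ℕ) (T : ℝ) (b : Fin j → Fin (n + 1) → ℤ) (x : ℝ) :
    Fin j → Fin (n + 1) → ℝ :=
  fun a => hvec n T x (fun i => (b a i : ℝ))

/-- Every minor of the family is a polynomial in `x` of degree at most `n`. -/
lemma exists_poly (n j : ℕ) (T : ℝ) (b : Fin j → Fin (n + 1) → ℤ) (I : Fin j → Fin (n + 1)) :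
    ∃ q : ℝ[X], q.natDegree ≤ n ∧ ∀ x, minors (hfam n T b x) I = q.eval x := by
  classical
  by_cases h0 : ∃ c, I c = 0
  · obtain ⟨c₀, hc₀⟩ := h0
    by_cases h1 : ∃ c, c ≠ c₀ ∧ I c = 0
    · obtain ⟨c₁, hc₁, hc₁'⟩ := h1
      refine ⟨0, by simp, fun x => ?_⟩
      rw [eval_zero]
      unfold minors
      refine Matrix.det_zero_of_column_eq hc₁ fun a => ?_
      simp [hc₀, hc₁']
    · push Not at h1
      obtain ⟨m, rfl⟩ : ∃ m, j = m + 1 := by
        cases j with
        | zero => exact absurd c₀.2 (by omega)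
        | succ m => exact ⟨m, rfl⟩
      let D : Fin (m + 1) → ℝ := fun a => (Matrix.of fun (a' c' : Fin m) =>
        (b (a.succAbove a') (I (c₀.succAbove c')) : ℝ) / T).det
      refine ⟨∑ a : Fin (m + 1), C ((-1) ^ ((a : ℕ) + (c₀ : ℕ)) * T ^ n * D a) *
        ∑ k : Fin (n + 1), C ((b a k : ℤ) : ℝ) * X ^ (k : ℕ), ?_, fun x => ?_⟩
      · refine natDegree_sum_le_of_forall_le _ _ fun a _ => ?_
        refine (natDegree_C_mul_le _ _).trans ?_
        refine natDegree_sum_le_of_forall_le _ _ fun k _ => ?_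
        refine (natDegree_C_mul_X_pow_le _ _).trans ?_
        omega
      · unfold minors
        rw [Matrix.det_succ_column _ c₀, eval_finsetSum]
        refine Finset.sum_congr rfl fun a _ => ?_
        have hD : ((Matrix.of fun a c => hfam n T b x a (I c)).submatrix a.succAbove
            c₀.succAbove).det = D a := by
          simp only [D]
          congr 1
          ext a' c'
          simp only [Matrix.submatrix_apply, Matrix.of_apply, hfam]
          rw [hvec_ne]
          exact h1 _ (Fin.succAbove_ne c₀ c')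
        rw [hD, Matrix.of_apply, hc₀]
        simp only [hfam]
        rw [hvec_zero, eval_mul, eval_C, eval_finsetSum]
        simp only [eval_mul, eval_C, eval_pow, eval_X]
        ring
  · push Not at h0
    refine ⟨C (Matrix.of fun (a c : Fin j) => (b a (I c) : ℝ) / T).det, by simp, fun x => ?_⟩
    rw [eval_C]
    unfold minors
    congr 1
    ext a c
    simp only [Matrix.of_apply, hfam]
    rw [hvec_ne _ _ _ _ _ (h0 c)]

/-- Lower bound at an integer point. -/
lemma exists_large_point (n m : ℕ) (hm : m ≤ n) (T : ℝ) (hT : 1 ≤ T)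
    (b : Fin (m + 1) → Fin (n + 1) → ℤ) (hb : LinearIndependent ℤ b) :
    ∃ z : ℕ, z ≤ n ∧ 1 ≤ ‖minors (hfam n T b (z : ℝ))‖ := by
  classical
  obtain ⟨I₀, hI₀⟩ := exists_minor_ne_zero b hb
  -- choose the column
  have hc : ∃ c₀, ∀ c, c ≠ c₀ → I₀ c ≠ 0 := by
    by_cases h0 : ∃ c, I₀ c = 0
    · obtain ⟨c₀, hc₀⟩ := h0
      refine ⟨c₀, fun c hc hcon => hI₀ ?_⟩
      unfold minors
      refine Matrix.det_zero_of_column_eq hc fun a => ?_
      simp [hc₀, hcon]
    · push Not at h0
      exact ⟨0, fun c _ => h0 c⟩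
  obtain ⟨c₀, hc₀⟩ := hc
  let p : ℤ[X] := ∑ k : Fin (n + 1), C (minors b (Function.update I₀ c₀ k)) * X ^ (k : ℕ)
  have hpdeg : p.natDegree ≤ n := by
    refine natDegree_sum_le_of_forall_le _ _ fun k _ => ?_
    refine (natDegree_C_mul_X_pow_le _ _).trans ?_
    omega
  have hpne : p ≠ 0 := by
    intro h
    have h1 := congrArg (fun q : ℤ[X] => q.coeff (I₀ c₀ : ℕ)) h
    simp only [p, finsetSum_coeff, coeff_C_mul, coeff_X_pow, coeff_zero] at h1
    rw [Finset.sum_eq_single (I₀ c₀)] at h1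
    · simp at h1
      exact hI₀ h1
    · intro k _ hk
      have : ((I₀ c₀ : Fin (n+1)) : ℕ) ≠ (k : ℕ) := fun h => hk (Fin.ext h.symm)
      simp [this]
    · simp
  -- an integer point where `p` does not vanish
  have hz : ∃ z : ℕ, z ≤ n ∧ p.eval (z : ℤ) ≠ 0 := by
    by_contra hcon
    push Not at hcon
    apply hpne
    refine Polynomial.eq_zero_of_natDegree_lt_card_of_eval_eq_zero p
      (f := fun z : Fin (n + 1) => ((z : ℕ) : ℤ)) ?_ ?_ ?_
    · intro x y hxy
      simp only [Nat.cast_inj] at hxy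
      exact Fin.ext hxy
    · intro z
      exact hcon z (by omega)
    · simp; omega
  obtain ⟨z, hzn, hz0⟩ := hz
  refine ⟨z, hzn, ?_⟩
  let I : Fin (m + 1) → Fin (n + 1) := Function.update I₀ c₀ 0
  have hIc₀ : I c₀ = 0 := by simp [I]
  have hIne : ∀ c, c ≠ c₀ → I c = I₀ c := fun c hc => by simp [I, hc]
  have hT0 : (0:ℝ) < T := by linarith
  -- the sub-determinants
  let D : Fin (m + 1) → ℤ := fun a => (Matrix.of fun (a' c' : Fin m) =>
    b (a.succAbove a') (I₀ (c₀.succAbove c'))).det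
  have hminor : ∀ k : Fin (n + 1), minors b (Function.update I₀ c₀ k) =
      ∑ a : Fin (m + 1), (-1) ^ ((a : ℕ) + (c₀ : ℕ)) * b a k * D a := by
    intro k
    unfold minors
    rw [Matrix.det_succ_column _ c₀]
    refine Finset.sum_congr rfl fun a _ => ?_
    congr 1
    · simp
    · simp only [D]
      congr 1
      ext a' c'
      simp [Matrix.submatrix_apply, Fin.succAbove_ne]
  have hval : minors (hfam n T b (z : ℝ)) I = T ^ n * (1 / T) ^ m * ((p.eval (z : ℤ) : ℤ) : ℝ) := by
    have h1 : ∀ a : Fin (m + 1), ((Matrix.of fun a c => hfam n T b (z:ℝ) a (I c)).submatrix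
        a.succAbove c₀.succAbove).det = (1 / T) ^ m * (D a : ℝ) := by
      intro a
      have h2 : ((Matrix.of fun a c => hfam n T b (z:ℝ) a (I c)).submatrix a.succAbove
        c₀.succAbove) = (1 / T) • (Matrix.of fun (a' c' : Fin m) =>
          ((b (a.succAbove a') (I₀ (c₀.succAbove c')) : ℤ) : ℝ)) := by
        ext a' c'
        simp only [Matrix.submatrix_apply, Matrix.of_apply, hfam, Matrix.smul_apply, smul_eq_mul]
        rw [hIne _ (Fin.succAbove_ne c₀ c'), hvec_ne _ _ _ _ _ (hc₀ _ (Fin.succAbove_ne c₀ c'))]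
        ring
      rw [h2, Matrix.det_smul, Fintype.card_fin]
      congr 1
      simp only [D]
      have := RingHom.map_det (Int.castRingHom ℝ) (Matrix.of fun (a' c' : Fin m) =>
        b (a.succAbove a') (I₀ (c₀.succAbove c')))
      rw [eq_intCast] at this
      rw [this]
      rfl
    unfold minors
    rw [Matrix.det_succ_column _ c₀]
    simp_rw [h1]
    simp only [p, eval_finsetSum, eval_mul, eval_C, eval_pow, eval_X]
    simp_rw [hminor]
    push_cast
    rw [Finset.mul_sum]
    simp_rw [Finset.sum_mul, Finset.mul_sum]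
    rw [Finset.sum_comm]
    refine Finset.sum_congr rfl fun a _ => ?_
    rw [Matrix.of_apply, hIc₀]
    simp only [hfam]
    rw [hvec_zero]
    rw [Finset.mul_sum, Finset.mul_sum, Finset.sum_mul]
    refine Finset.sum_congr rfl fun k _ => ?_
    ring
  have h3 : (1:ℝ) ≤ |((p.eval (z : ℤ) : ℤ) : ℝ)| := by
    have := Int.one_le_abs hz0
    exact_mod_cast this
  have h4 : (1:ℝ) ≤ T ^ n * (1 / T) ^ m := by
    rw [one_div, inv_pow, ← div_eq_mul_inv, one_le_div (by positivity)]
    exact pow_le_pow_right₀ hT hm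
  calc (1:ℝ) ≤ (T ^ n * (1 / T) ^ m) * |((p.eval (z : ℤ) : ℤ) : ℝ)| := by nlinarith
    _ = ‖minors (hfam n T b (z : ℝ)) I‖ := by
        rw [hval, norm_mul, Real.norm_eq_abs, Real.norm_eq_abs, abs_of_pos (a := T ^ n * (1 / T) ^ m) (by positivity)]
    _ ≤ ‖minors (hfam n T b (z : ℝ))‖ := norm_le_pi_norm _ _

end Pool.Agent.Sprindzhuk
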