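import Mathlib
import Pool.Agent.Sprindzhuk.Family

open MeasureTheory Metric Set Polynomial Module
open scoped ENNReal

namespace Pool.Agent.Sprindzhuk

/-- the chosen integral basis of a rational subspace -/
noncomputable def basisOf {d : ℕ} (W : Submodule ℚ (Fin d → ℚ)) : Fin (finrank ℚ W) → (Fin d → ℤ) :=
  (exists_int_basis W).choose

lemma basisOf_mem {d : ℕ} (W : Submodule ℚ (Fin d → ℚ)) (i : Fin (finrank ℚ W)) :
    toQ d (basisOf W i) ∈ W :=
  (exists_int_basis W).choose_spec.1 i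

lemma basisOf_li {d : ℕ} (W : Submodule ℚ (Fin d → ℚ)) : LinearIndependent ℤ (basisOf W) :=
  (exists_int_basis W).choose_spec.2.1

lemma basisOf_comb {d : ℕ} (W : Submodule ℚ (Fin d → ℚ)) (z : Fin d → ℤ) (hz : toQ d z ∈ W) :
    ∃ c : Fin (finrank ℚ W) → ℤ, z = ∑ i, c i • basisOf W i :=
  (exists_int_basis W).choose_spec.2.2 z hz

/-- The function `ψ_W(x)`: size of the exterior product of the lattice basis. -/
noncomputable def psi (n : ℕ) (T : ℝ) (W : Submodule ℚ (Fin (n + 1) → ℚ)) (x : ℝ) : ℝ :=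
  ‖minors (hfam n T (basisOf W) x)‖

lemma exists_entry_of_one_le {ι : Type*} [Fintype ι] (f : ι → ℝ) (h : 1 ≤ ‖f‖) : ∃ i, 1 ≤ |f i| := by
  by_contra hcon
  push Not at hcon
  have : ‖f‖ < 1 := (pi_norm_lt_iff (by norm_num)).2 hcon
  linarith

lemma psi_continuous (n : ℕ) (T : ℝ) (W : Submodule ℚ (Fin (n + 1) → ℚ)) :
    Continuous (psi n T W) := by
  unfold psi
  refine continuous_norm.comp (continuous_pi fun I => ?_)
  obtain ⟨q, _, hq⟩ := exists_poly n _ T (basisOf W) I
  simp_rw [hq]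
  exact q.continuous

lemma psi_good (n : ℕ) (hn : 1 ≤ n) (T : ℝ) (η : ℝ) (hη : 0 < η) (W : Submodule ℚ (Fin (n + 1) → ℚ))
    (c r : ℝ) (hr : 0 < r) (h : ∃ z ∈ closedBall c r, 1 ≤ psi n T W z) :
    volume {x ∈ closedBall c r | psi n T W x < η ^ n / (n + 1)} ≤
      ENNReal.ofReal (4 * n * η) * volume (closedBall c r) := by
  obtain ⟨z, hz, hz1⟩ := h
  obtain ⟨I, hI⟩ := exists_entry_of_one_le _ hz1
  obtain ⟨q, hqn, hq⟩ := exists_poly n _ T (basisOf W) I
  rw [hq] at hI
  refine (measure_mono ?_).trans (poly_good n hn q hqn η hη c r hr z hz hI)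
  rintro x ⟨hx, hx'⟩
  refine ⟨hx, lt_of_le_of_lt ?_ hx'⟩
  rw [← hq]
  exact norm_le_pi_norm (minors (hfam n T (basisOf W) x)) I

lemma hvec_comb {j : ℕ} (n : ℕ) (T x : ℝ) (b : Fin j → Fin (n + 1) → ℤ) (c : Fin j → ℤ)
    (z : Fin (n + 1) → ℤ) (hz : z = ∑ l, c l • b l) :
    hvec n T x (fun i => (z i : ℝ)) = ∑ l, (c l : ℝ) • hfam n T b x l := by
  subst hz
  ext i
  rw [Finset.sum_apply]
  simp only [Pi.smul_apply, smul_eq_mul, hfam]
  by_cases hi : i = 0
  · subst hi
    simp only [hvec_zero]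
    simp only [Finset.sum_apply, Pi.smul_apply, smul_eq_mul, Int.cast_sum, Int.cast_mul]
    simp_rw [Finset.sum_mul, Finset.mul_sum]
    rw [Finset.sum_comm]
    refine Finset.sum_congr rfl fun l _ => Finset.sum_congr rfl fun k _ => ?_
    ring
  · simp only [hvec_ne _ _ _ _ _ hi]
    simp only [Finset.sum_apply, Pi.smul_apply, smul_eq_mul, Int.cast_sum, Int.cast_mul]
    rw [Finset.sum_div]
    refine Finset.sum_congr rfl fun l _ => ?_
    ring

/-- Passing to a lattice basis decreases the norm. -/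
lemma norm_le_of_comb {j : ℕ} (n : ℕ) (T x : ℝ) (b u : Fin j → Fin (n + 1) → ℤ)
    (hu : LinearIndependent ℤ u) (h : ∀ a, ∃ c : Fin j → ℤ, u a = ∑ l, c l • b l) :
    ‖minors (hfam n T b x)‖ ≤ ‖minors (hfam n T u x)‖ := by
  classical
  choose A hA using h
  let A' : Matrix (Fin j) (Fin j) ℤ := Matrix.of A
  have hdet : A'.det ≠ 0 := by
    intro h0
    obtain ⟨I, hI⟩ := exists_minor_ne_zero u hu
    apply hI
    rw [minors_comb b u A' (fun a => hA a) I, h0, zero_mul]
  have h1 : minors (hfam n T u x) = (A'.det : ℝ) • minors (hfam n T b x) := by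
    ext I
    rw [Pi.smul_apply, smul_eq_mul]
    have h2 := minors_comb (hfam n T b x) (hfam n T u x) (A'.map (fun z : ℤ => (z : ℝ))) (fun a => by
      have := hvec_comb n T x b (A a) (u a) (hA a)
      exact this) I
    rw [h2]
    congr 1
    have := RingHom.map_det (Int.castRingHom ℝ) A'
    rw [eq_intCast] at this
    rw [this]
    rfl
  rw [h1, norm_smul]
  have h3 : (1:ℝ) ≤ ‖(A'.det : ℝ)‖ := by
    rw [Real.norm_eq_abs]
    have := Int.one_le_abs hdet
    exact_mod_cast this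
  have h4 := norm_nonneg (minors (hfam n T b x))
  nlinarith

/-- Submultiplicativity. -/
lemma psi_sup (n : ℕ) (T x : ℝ) (W : Submodule ℚ (Fin (n + 1) → ℚ)) (v : Fin (n + 1) → ℤ)
    (hv : toQ (n + 1) v ∉ W) :
    psi n T (W ⊔ Submodule.span ℚ {toQ (n + 1) v}) x ≤
      (n + 1) * psi n T W x * ‖hvec n T x (fun i => (v i : ℝ))‖ := by
  classical
  set Δ := W ⊔ Submodule.span ℚ {toQ (n + 1) v} with hΔ
  have hfin : finrank ℚ Δ = finrank ℚ W + 1 := Submodule.finrank_sup_span_singleton hv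
  -- the family `(basis of W, v)`
  let u : Fin (finrank ℚ W + 1) → Fin (n + 1) → ℤ := Fin.snoc (basisOf W) v
  let bΔ : Fin (finrank ℚ W + 1) → Fin (n + 1) → ℤ := basisOf Δ ∘ Fin.cast hfin.symm
  have hpsi : psi n T Δ x = ‖minors (hfam n T bΔ x)‖ := by
    unfold psi
    have : ∀ (m : ℕ) (h : m = finrank ℚ Δ) , ‖minors (hfam n T (basisOf Δ) x)‖ =
        ‖minors (hfam n T (basisOf Δ ∘ Fin.cast h) x)‖ := by
      intro m h
      subst h
      rfl
    exact this _ hfin.symm
  -- integer points of `W` span a space not containing `v`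
  have hliW : LinearIndependent ℤ (basisOf W) := basisOf_li W
  have hmemΔ : ∀ a, toQ (n + 1) (u a) ∈ Δ := by
    intro a
    refine Fin.lastCases ?_ (fun a => ?_) a
    · simp only [u, Fin.snoc_last]
      exact Submodule.mem_sup_right (Submodule.mem_span_singleton_self _)
    · simp only [u, Fin.snoc_castSucc]
      exact Submodule.mem_sup_left (basisOf_mem W a)
  have hliu : LinearIndependent ℤ u := by
    have h1 : LinearIndependent ℚ (fun i => toQ (n + 1) (basisOf W i)) :=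
      (LinearIndependent.iff_fractionRing ℤ ℚ).1
        (hliW.map' (toQ (n + 1)) (LinearMap.ker_eq_bot.2 (toQ_injective (n + 1))))
    have h2 : LinearIndependent ℚ (Fin.snoc (fun i => toQ (n + 1) (basisOf W i)) (toQ (n + 1) v) :
        Fin (finrank ℚ W + 1) → (Fin (n + 1) → ℚ)) := by
      rw [linearIndependent_finSnoc]
      refine ⟨h1, fun h => hv ?_⟩
      refine (Submodule.span_le.2 ?_) h
      rintro _ ⟨i, rfl⟩
      exact basisOf_mem W i
    have h3 : (Fin.snoc (fun i => toQ (n + 1) (basisOf W i)) (toQ (n + 1) v) :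
        Fin (finrank ℚ W + 1) → (Fin (n + 1) → ℚ)) = (toQ (n + 1)) ∘ u := by
      ext a
      refine Fin.lastCases ?_ (fun a => ?_) a
      · simp [u]
      · simp [u]
    rw [h3] at h2
    have h4 := (LinearIndependent.iff_fractionRing ℤ ℚ).2 h2
    exact LinearIndependent.of_comp (toQ (n + 1)) h4
  have hcomb : ∀ a, ∃ c : Fin (finrank ℚ W + 1) → ℤ, u a = ∑ l, c l • bΔ l := by
    intro a
    obtain ⟨c, hc⟩ := basisOf_comb Δ (u a) (hmemΔ a)
    refine ⟨c ∘ Fin.cast hfin.symm, ?_⟩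
    rw [hc]
    exact (Equiv.sum_comp (finCongr hfin.symm) (fun l => c l • basisOf Δ l)).symm
  have h5 := norm_le_of_comb n T x bΔ u hliu hcomb
  rw [hpsi]
  refine h5.trans ?_
  have h6 : hfam n T u x = (Fin.snoc (hfam n T (basisOf W) x) (hvec n T x (fun i => (v i : ℝ))) :
      Fin (finrank ℚ W + 1) → Fin (n + 1) → ℝ) := by
    ext a
    refine Fin.lastCases ?_ (fun a => ?_) a
    · simp [u, hfam]
    · simp [u, hfam]
  rw [h6]
  refine (norm_minors_snoc _ _).trans ?_
  unfold psi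
  have h7 : ((finrank ℚ W : ℝ) + 1) ≤ (n + 1 : ℝ) := by
    have : finrank ℚ W + 1 ≤ n + 1 := by
      rw [← hfin]
      have := Submodule.finrank_le Δ
      simpa using this
    exact_mod_cast this
  gcongr

end Pool.Agent.Sprindzhuk
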