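import Mathlib
import Pool.Agent.Sprindzhuk.Psi

open MeasureTheory Metric Set Polynomial Module
open scoped ENNReal

namespace Pool.Agent.Sprindzhuk

lemma exists_large_point' (n j : ℕ) (hj : 1 ≤ j) (hjn : j ≤ n + 1) (T : ℝ) (hT : 1 ≤ T)
    (b : Fin j → Fin (n + 1) → ℤ) (hb : LinearIndependent ℤ b) :
    ∃ z : ℕ, z ≤ n ∧ 1 ≤ ‖minors (hfam n T b (z : ℝ))‖ := by
  obtain ⟨m, rfl⟩ : ∃ m, j = m + 1 := ⟨j - 1, by omega⟩
  exact exists_large_point n m (by omega) T hT b hb

lemma norm_minors_zero {j d : ℕ} (u : Fin j → Fin d → ℝ) (hj : j = 0) : ‖minors u‖ ≤ 1 := by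
  subst hj
  rw [pi_norm_le_iff_of_nonneg (by norm_num)]
  intro I
  unfold minors
  rw [Matrix.det_isEmpty]
  simp

/-- Quantitative nondivergence for the Veronese curve. -/
theorem qnd (n : ℕ) (hn : 1 ≤ n) (T : ℝ) (hT : 1 ≤ T) (η : ℝ) (hη : 0 < η) (hη1 : η ≤ 1)
    (r : ℝ) (hr : (n : ℝ) ≤ r) :
    volume {x ∈ closedBall (0 : ℝ) r | ∃ v : Fin (n + 1) → ℤ, v ≠ 0 ∧
        (∀ i, |(v i : ℝ)| < η ^ n / (n + 1) ^ 2 * T) ∧
        T ^ n * |∑ i, (v i : ℝ) * x ^ (i : ℕ)| < η ^ n / (n + 1) ^ 2} ≤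
      ENNReal.ofReal (K (n + 1) * (4 * n * η)) * volume (closedBall (0 : ℝ) r) := by
  classical
  set δ : ℝ := η ^ n / (n + 1) ^ 2 with hδ
  set ε : ℝ := η ^ n / (n + 1) with hε
  have hδpos : 0 < δ := by positivity
  have hT0 : 0 < T := by linarith
  have hr0 : 0 < r := by
    have : (1:ℝ) ≤ n := by exact_mod_cast hn
    linarith
  have hε1 : ε ≤ 1 := by
    rw [hε, div_le_one (by positivity)]
    have h1 : η ^ n ≤ 1 := pow_le_one₀ hη.le hη1
    have h2 : (0:ℝ) ≤ n := Nat.cast_nonneg n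
    linarith
  let M : ℤ := ⌈δ * T⌉
  let S : Finset (Fin (n + 1) → ℤ) := Fintype.piFinset (fun _ => Finset.Icc (-M) M)
  let sp : Finset (Fin (n + 1) → ℤ) → Submodule ℚ (Fin (n + 1) → ℚ) := fun A =>
    Submodule.span ℚ ((toQ (n + 1)) '' (A : Set (Fin (n + 1) → ℤ)))
  let P : Finset (Submodule ℚ (Fin (n + 1) → ℚ)) := (S.powerset.image sp).filter (fun W => W ≠ ⊥)
  have hchain : ∀ F ⊆ P, IsChain (· ≤ ·) (F : Set (Submodule ℚ (Fin (n + 1) → ℚ))) →
      F.card ≤ n + 1 := by
    intro F hF hch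
    have h1 : F.card ≤ (Finset.Icc 1 (n + 1)).card := by
      refine Finset.card_le_card_of_injOn (fun W => finrank ℚ W) ?_ ?_
      · intro W hW
        have hW1 : W ≠ ⊥ := (Finset.mem_filter.1 (hF hW)).2
        rw [Finset.mem_coe, Finset.mem_Icc]
        refine ⟨?_, ?_⟩
        · exact Nat.one_le_iff_ne_zero.2 fun h => hW1 (Submodule.finrank_eq_zero.1 h)
        · have := Submodule.finrank_le W
          simpa using this
      · intro W hW W' hW' hWW'
        rcases hch.total hW hW' with h | h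
        · exact Submodule.eq_of_le_of_finrank_eq h hWW'
        · exact (Submodule.eq_of_le_of_finrank_eq h hWW'.symm).symm
    simpa using h1
  have hlarge : ∀ W ∈ P, ∃ z ∈ closedBall (0 : ℝ) r, 1 ≤ psi n T W z := by
    intro W hW
    have hW1 : W ≠ ⊥ := (Finset.mem_filter.1 hW).2
    obtain ⟨z, hz, hz1⟩ := exists_large_point' n (finrank ℚ W)
      (Nat.one_le_iff_ne_zero.2 fun h => hW1 (Submodule.finrank_eq_zero.1 h))
      (by have := Submodule.finrank_le W; simpa using this) T hT (basisOf W) (basisOf_li W)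
    refine ⟨z, ?_, hz1⟩
    rw [mem_closedBall, dist_zero_right, Real.norm_eq_abs, abs_of_nonneg (Nat.cast_nonneg z)]
    have : (z : ℝ) ≤ n := by exact_mod_cast hz
    linarith
  have hkm := km_abstract (psi n T) (psi_continuous n T) ε 1 (4 * n * η) hε1 (by positivity)
    (fun W c r hr h => psi_good n hn T η hη W c r hr h) (n + 1) P hchain 0 r hr0 hlarge
  refine (measure_mono ?_).trans hkm
  rintro x ⟨hx, v, hv0, hv1, hv2⟩
  refine ⟨hx, ?_⟩
  rintro ⟨F, hFP, hFch, hF1, hFε⟩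
  have htv : toQ (n + 1) v ≠ 0 := by
    intro h
    apply hv0
    apply toQ_injective (n + 1)
    rw [h, map_zero]
  have hvS : v ∈ S := by
    rw [Fintype.mem_piFinset]
    intro i
    have h1 := abs_lt.1 (hv1 i)
    have h2 : δ * T ≤ (M : ℝ) := Int.le_ceil _
    rw [Finset.mem_Icc]
    constructor
    · have : (-(M:ℝ)) ≤ (v i : ℝ) := by linarith
      exact_mod_cast this
    · have : (v i : ℝ) ≤ (M:ℝ) := by linarith
      exact_mod_cast this
  -- the maximal element of the flag not containing `v`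
  let F' : Finset (Submodule ℚ (Fin (n + 1) → ℚ)) := (insert ⊥ F).filter fun W => toQ (n + 1) v ∉ W
  have hF'ne : F'.Nonempty := ⟨⊥, by
    rw [Finset.mem_filter]
    exact ⟨Finset.mem_insert_self _ _, fun h => htv ((Submodule.mem_bot ℚ).1 h)⟩⟩
  obtain ⟨W₀, hW₀, hmax⟩ := Finset.exists_max_image F' (fun W => finrank ℚ W) hF'ne
  rw [Finset.mem_filter, Finset.mem_insert] at hW₀
  obtain ⟨hW₀F, hvW₀⟩ := hW₀
  have hcompW₀ : ∀ t ∈ F, t ≤ W₀ ∨ W₀ ≤ t := by
    intro t ht
    rcases hW₀F with h | h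
    · right; rw [h]; exact bot_le
    · exact hFch.total ht h
  set Δ := W₀ ⊔ Submodule.span ℚ {toQ (n + 1) v} with hΔ
  have hvΔ : toQ (n + 1) v ∈ Δ := Submodule.mem_sup_right (Submodule.mem_span_singleton_self _)
  have hΔP : Δ ∈ P := by
    rw [Finset.mem_filter, Finset.mem_image]
    refine ⟨?_, fun h => ?_⟩
    · rcases hW₀F with h | h
      · refine ⟨{v}, ?_, ?_⟩
        · rw [Finset.mem_powerset]; simpa using hvS
        · simp only [sp, hΔ, h]; simp
      · have h1 := hFP h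
        rw [Finset.mem_filter, Finset.mem_image] at h1
        obtain ⟨⟨A, hA, hAW⟩, -⟩ := h1
        refine ⟨insert v A, ?_, ?_⟩
        · rw [Finset.mem_powerset] at hA ⊢
          exact Finset.insert_subset hvS hA
        · rw [hΔ, ← hAW]
          simp only [sp]
          rw [Finset.coe_insert, Set.image_insert_eq, Submodule.span_insert, sup_comm]
    · rw [h] at hvΔ
      exact htv ((Submodule.mem_bot ℚ).1 hvΔ)
  have hcomp : ∀ t ∈ F, Δ ≤ t ∨ t ≤ Δ := by
    intro t ht
    by_cases hvt : toQ (n + 1) v ∈ t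
    · left
      have hWt : W₀ ≤ t := by
        rcases hcompW₀ t ht with h | h
        · exact absurd (h hvt) hvW₀
        · exact h
      exact sup_le hWt (by rw [Submodule.span_singleton_le_iff_mem]; exact hvt)
    · right
      have htF' : t ∈ F' := Finset.mem_filter.2 ⟨Finset.mem_insert_of_mem ht, hvt⟩
      have hle := hmax t htF'
      have htW : t ≤ W₀ := by
        rcases hcompW₀ t ht with h | h
        · exact h
        · have : W₀ = t := Submodule.eq_of_le_of_finrank_le h hle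
          exact this.symm.le
      exact htW.trans le_sup_left
  have h1 : ε ≤ psi n T Δ x := hFε Δ hΔP hcomp
  have h2 := psi_sup n T x W₀ v hvW₀
  rw [← hΔ] at h2
  have h3 : psi n T W₀ x ≤ 1 := by
    rcases hW₀F with h | h
    · rw [h]
      exact norm_minors_zero _ (by simp)
    · exact hF1 W₀ h
  have h4 : ‖hvec n T x (fun i => (v i : ℝ))‖ < δ := by
    rw [pi_norm_lt_iff hδpos]
    intro i
    by_cases hi : i = 0
    · rw [hi, hvec_zero, norm_mul, Real.norm_eq_abs, Real.norm_eq_abs, abs_of_pos (a := T ^ n) (by positivity)]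
      exact hv2
    · rw [hvec_ne _ _ _ _ _ hi, Real.norm_eq_abs, abs_div, abs_of_pos hT0, div_lt_iff₀ hT0]
      exact hv1 i
  have h5 : ε = (n + 1) * δ := by
    rw [hε, hδ]
    field_simp
  have h6 : 0 ≤ psi n T W₀ x := norm_nonneg _
  have h7 : 0 ≤ ‖hvec n T x (fun i => (v i : ℝ))‖ := norm_nonneg _
  have hn0 : (0:ℝ) < (n:ℝ) + 1 := by positivity
  have h8 : (n + 1) * psi n T W₀ x * ‖hvec n T x (fun i => (v i : ℝ))‖ < (n + 1) * δ := by
    calc (n + 1) * psi n T W₀ x * ‖hvec n T x (fun i => (v i : ℝ))‖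
        ≤ (n + 1) * 1 * ‖hvec n T x (fun i => (v i : ℝ))‖ := by gcongr
      _ = (n + 1) * ‖hvec n T x (fun i => (v i : ℝ))‖ := by ring
      _ < (n + 1) * δ := by
          exact mul_lt_mul_of_pos_left h4 hn0
  linarith

end Pool.Agent.Sprindzhuk
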