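import Mathlib
import Pool.Agent.Sprindzhuk.Qnd

open MeasureTheory Metric Set Polynomial Module Filter
open scoped ENNReal

namespace Pool.Agent.Sprindzhuk

/-- bad set for degree `n`, time `T = 2^k`, parameter `γ`, radius `r` -/
def bad (γ : ℝ) (n k : ℕ) (r : ℝ) : Set ℝ :=
  {x ∈ closedBall (0 : ℝ) r | ∃ v : Fin (n + 1) → ℤ, v ≠ 0 ∧
    (∀ i, |(v i : ℝ)| < (Real.exp (-(n * Real.log 32 + k * γ * Real.log 2 / n))) ^ n / (n + 1) ^ 2
      * 2 ^ k) ∧
    ((2 : ℝ) ^ k) ^ n * |∑ i, (v i : ℝ) * x ^ (i : ℕ)| <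
      (Real.exp (-(n * Real.log 32 + k * γ * Real.log 2 / n))) ^ n / (n + 1) ^ 2}

lemma log32_pos : 0 < Real.log 32 := Real.log_pos (by norm_num)

lemma log2_pos : 0 < Real.log 2 := Real.log_pos (by norm_num)

lemma volume_bad (γ : ℝ) (hγ : 0 < γ) (n : ℕ) (hn : 1 ≤ n) (k : ℕ) (r : ℝ) (hr : (n : ℝ) ≤ r) :
    volume (bad γ n k r) ≤ ENNReal.ofReal
      ((2 * 15 ^ (n + 1)) * (4 * n * Real.exp (-(n * Real.log 32 + k * γ * Real.log 2 / n))) *
        (2 * r)) := by
  have hn0 : (0:ℝ) < n := by exact_mod_cast hn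
  have h32 := log32_pos
  have h2 := log2_pos
  have hη1 : Real.exp (-(n * Real.log 32 + k * γ * Real.log 2 / n)) ≤ 1 := by
    rw [Real.exp_le_one_iff]
    have : 0 ≤ n * Real.log 32 + k * γ * Real.log 2 / n := by positivity
    linarith
  have h := qnd n hn (2 ^ k) (one_le_pow₀ (by norm_num))
    (Real.exp (-(n * Real.log 32 + k * γ * Real.log 2 / n))) (Real.exp_pos _) hη1 r hr
  unfold bad
  refine h.trans ?_
  rw [Real.volume_closedBall, ← ENNReal.ofReal_mul (by have := K_nonneg (n+1); positivity)]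
  apply ENNReal.ofReal_le_ofReal
  have h1 := K_le (n + 1)
  have hr0 : 0 ≤ r := hn0.le.trans hr
  have h4 : K (n + 1) ≤ 2 * 15 ^ (n + 1) := by linarith
  gcongr

/-- total measure of the bad sets is finite -/
lemma tsum_bad (γ : ℝ) (hγ : 0 < γ) (hγ1 : γ ≤ 1) (j : ℕ) :
    ∑' p : ℕ × ℕ, volume (bad γ (p.1 + 1) p.2 ((p.1 + 1 : ℕ) + j)) ≠ ∞ := by
  have h32 := log32_pos
  have h2 := log2_pos
  have h21 : Real.log 2 ≤ 1 := by have := Real.log_two_lt_d9; linarith
  rw [ENNReal.tsum_prod']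
  -- bound the inner sums
  have hinner : ∀ a : ℕ, ∑' k : ℕ, volume (bad γ (a + 1) k ((a + 1 : ℕ) + j)) ≤
      ENNReal.ofReal ((30 * 16 * (1 + j) / (γ * Real.log 2)) * (((a + 1 : ℕ) : ℝ) ^ 3 * (15 / 32) ^ (a + 1))) := by
    intro a
    set N : ℕ := a + 1 with hN
    have hN1 : 1 ≤ N := by omega
    have hN0 : (0:ℝ) < N := by exact_mod_cast hN1
    have hN1' : (1:ℝ) ≤ N := by exact_mod_cast hN1
    set u : ℝ := γ * Real.log 2 / N with hu
    have hu0 : 0 < u := by positivity
    have hu1 : u ≤ 1 := by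
      rw [hu, div_le_one hN0]
      calc γ * Real.log 2 ≤ 1 * 1 := mul_le_mul hγ1 h21 h2.le (by norm_num)
        _ ≤ N := by linarith
    have hterm : ∀ k : ℕ, volume (bad γ N k ((N : ℕ) + j)) ≤
        ENNReal.ofReal (((2 * 15 ^ (N + 1)) * (4 * N * Real.exp (-(N * Real.log 32))) *
        (2 * (N + j))) * (Real.exp (-u)) ^ k) := by
      intro k
      refine (volume_bad γ hγ N hN1 k ((N : ℕ) + j) (by have : (0:ℝ) ≤ j := Nat.cast_nonneg j
                                                        linarith)).trans ?_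
      apply ENNReal.ofReal_le_ofReal
      apply le_of_eq
      rw [← Real.exp_nat_mul]
      have : Real.exp (-(N * Real.log 32 + k * γ * Real.log 2 / N)) =
          Real.exp (-(N * Real.log 32)) * Real.exp (k * (-u)) := by
        rw [← Real.exp_add]
        congr 1
        rw [hu]; ring
      rw [this]
      ring
    refine (ENNReal.tsum_le_tsum hterm).trans ?_
    have hq0 : 0 ≤ Real.exp (-u) := (Real.exp_pos _).le
    have hq1 : Real.exp (-u) < 1 := by rw [Real.exp_lt_one_iff]; linarith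
    have hsum : Summable fun k : ℕ => (((2 * 15 ^ (N + 1)) * (4 * N * Real.exp (-(N * Real.log 32))) *
        (2 * (N + j))) * (Real.exp (-u)) ^ k) :=
      (summable_geometric_of_lt_one hq0 hq1).mul_left _
    rw [← ENNReal.ofReal_tsum_of_nonneg (fun k => by positivity) hsum]
    apply ENNReal.ofReal_le_ofReal
    rw [tsum_mul_left, tsum_geometric_of_lt_one hq0 hq1]
    have hgeo : (1 - Real.exp (-u))⁻¹ ≤ 2 / u := by
      have h5 : u / 2 ≤ 1 - Real.exp (-u) := by
        have h6 : Real.exp (-u) ≤ 1 / (1 + u) := by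
          rw [Real.exp_neg, one_div]
          apply inv_anti₀ (by positivity)
          have := Real.add_one_le_exp u
          linarith
        have h7 : 1 / (1 + u) ≤ 1 - u / 2 := by
          rw [div_le_iff₀ (by positivity)]
          nlinarith
        linarith
      calc (1 - Real.exp (-u))⁻¹ ≤ (u / 2)⁻¹ := inv_anti₀ (by positivity) h5
        _ = 2 / u := by rw [inv_div]
    have hexp : Real.exp (-(N * Real.log 32)) = (1 / 32) ^ N := by
      rw [Real.exp_neg, Real.exp_nat_mul, Real.exp_log (by norm_num)]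
      rw [one_div, inv_pow]
    rw [hexp]
    have hj : (0:ℝ) ≤ j := Nat.cast_nonneg j
    calc 2 * 15 ^ (N + 1) * (4 * N * (1 / 32) ^ N) * (2 * ((N:ℝ) + j)) * (1 - Real.exp (-u))⁻¹
        ≤ 2 * 15 ^ (N + 1) * (4 * N * (1 / 32) ^ N) * (2 * (N * (1 + j))) * (2 / u) := by
          gcongr
          nlinarith
      _ = (30 * 16 * (1 + j) / (γ * Real.log 2)) * ((N : ℝ) ^ 3 * (15 / 32) ^ N) := by
          rw [hu, div_pow, div_pow]
          field_simp
          ring
  refine ne_top_of_le_ne_top ?_ (ENNReal.tsum_le_tsum hinner)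
  have hs : Summable fun a : ℕ => (((a + 1 : ℕ) : ℝ) ^ 3 * (15 / 32 : ℝ) ^ (a + 1)) := by
    have := summable_pow_mul_geometric_of_norm_lt_one 3 (r := (15 / 32 : ℝ)) (by
      rw [Real.norm_eq_abs, abs_of_pos (by norm_num)]; norm_num)
    exact (summable_nat_add_iff 1).2 this
  rw [← ENNReal.ofReal_tsum_of_nonneg (fun a => by positivity) (hs.mul_left _)]
  exact ENNReal.ofReal_ne_top

end Pool.Agent.Sprindzhuk
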